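import Pool.Agent.H58.Heat.Defs

/-!
Module H of the project HEAT: decomposition of the span of Hermite products into eigenfunctions
and transfer between the product space and the Euclidean space.
-/

namespace Pool.Agent.H44.Heat

open MeasureTheory ProbabilityTheory Pool.Agent.H58.Heat

/-- The derivative of a polynomial function of finitely many linear coordinates. -/
theorem hasFDerivAt_eval {n : ℕ} {V : Type*} [NormedAddCommGroup V] [NormedSpace ℝ V]
    (l : Fin n → (V →L[ℝ] ℝ)) (q : MvPolynomial (Fin n) ℝ) (x : V) :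
    HasFDerivAt (fun x : V => MvPolynomial.eval (fun i => l i x) q)
      (∑ i, MvPolynomial.eval (fun i => l i x) (MvPolynomial.pderiv i q) • l i) x := by
  induction q using MvPolynomial.induction_on with
  | C a =>
    simp only [MvPolynomial.eval_C, MvPolynomial.pderiv_C, map_zero, zero_smul,
      Finset.sum_const_zero]
    exact hasFDerivAt_const _ _
  | add p q hp hq =>
    simp only [map_add, add_smul, Finset.sum_add_distrib]
    exact hp.add hq
  | mul_X p j hp =>
    simp only [map_mul, MvPolynomial.eval_X]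
    have h := hp.mul (l j).hasFDerivAt
    refine h.congr_fderiv ?_
    ext v
    simp only [ContinuousLinearMap.add_apply, ContinuousLinearMap.smul_apply,
      ContinuousLinearMap.sum_apply, smul_eq_mul, Derivation.leibniz, map_add, map_mul,
      MvPolynomial.eval_X, MvPolynomial.pderiv_X, Finset.mul_sum]
    have h1 : ∀ i : Fin n, (MvPolynomial.eval (fun i => l i x) p *
        MvPolynomial.eval (fun i => l i x) (Pi.single (M := fun _ => MvPolynomial (Fin n) ℝ) i 1 j) +
          l j x * MvPolynomial.eval (fun i => l i x) (MvPolynomial.pderiv i p)) * l i v =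
        MvPolynomial.eval (fun i => l i x) p *
          (if i = j then l j v else 0) +
          l j x * (MvPolynomial.eval (fun i => l i x) (MvPolynomial.pderiv i p) * l i v) := by
      intro i
      by_cases hij : i = j
      · subst hij
        simp
        ring
      · simp [hij, Pi.single_apply, Ne.symm hij]
        ring
    rw [Finset.sum_congr rfl fun i _ => h1 i, Finset.sum_add_distrib]
    congr 1
    rw [← Finset.mul_sum, Finset.sum_ite_eq']
    simp

/-- The Ornstein Uhlenbeck operator on polynomials. -/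
noncomputable def NNq {n : ℕ} (q : MvPolynomial (Fin n) ℝ) : MvPolynomial (Fin n) ℝ :=
  ∑ i, (MvPolynomial.X i * MvPolynomial.pderiv i q -
    MvPolynomial.pderiv i (MvPolynomial.pderiv i q))

section euclid

variable {n : ℕ}

theorem pd_eval (q : MvPolynomial (Fin n) ℝ) (i : Fin n) (x : E n) :
    pd (fun x : E n => MvPolynomial.eval (fun i => x i) q) i x =
      MvPolynomial.eval (fun i => x i) (MvPolynomial.pderiv i q) := by
  have h := hasFDerivAt_eval (V := E n) (fun i => EuclideanSpace.proj i) q x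
  have h2 : HasFDerivAt (fun x : E n => MvPolynomial.eval (fun i => x i) q)
      (∑ i, MvPolynomial.eval (fun i => x i) (MvPolynomial.pderiv i q) •
        (EuclideanSpace.proj i : E n →L[ℝ] ℝ)) x := h
  unfold pd
  rw [h2.fderiv, ContinuousLinearMap.sum_apply, Finset.sum_eq_single i]
  · simp
  · intro j _ hj
    simp [hj]
  · intro hi
    exact absurd (Finset.mem_univ i) hi

theorem pd_eq_eval {f : E n → ℝ} {q : MvPolynomial (Fin n) ℝ}
    (hf : ∀ x : E n, f x = MvPolynomial.eval (fun i => x i) q) (i : Fin n) :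
    ∀ x : E n, pd f i x = MvPolynomial.eval (fun i => x i) (MvPolynomial.pderiv i q) := by
  intro x
  have : f = fun x : E n => MvPolynomial.eval (fun i => x i) q := funext hf
  rw [this]
  exact pd_eval q i x

theorem NN_eq_eval {f : E n → ℝ} {q : MvPolynomial (Fin n) ℝ}
    (hf : ∀ x : E n, f x = MvPolynomial.eval (fun i => x i) q) (x : E n) :
    NN f x = MvPolynomial.eval (fun i => x i) (NNq q) := by
  unfold NN NNq
  rw [map_sum]
  refine Finset.sum_congr rfl fun i _ => ?_
  rw [pd_eq_eval hf, pd_eq_eval (pd_eq_eval hf i)]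
  simp

end euclid

section pi

variable {n : ℕ}

theorem pd_pi_eq_eval {f : (Fin n → ℝ) → ℝ} {q : MvPolynomial (Fin n) ℝ}
    (hf : ∀ x, f x = MvPolynomial.eval x q) (i : Fin n) (x : Fin n → ℝ) :
    fderiv ℝ f x (Pi.single i 1) = MvPolynomial.eval x (MvPolynomial.pderiv i q) := by
  have h := hasFDerivAt_eval (V := Fin n → ℝ)
    (fun i => (ContinuousLinearMap.proj i : (Fin n → ℝ) →L[ℝ] ℝ)) q x
  have h2 : HasFDerivAt f
      (∑ i, MvPolynomial.eval x (MvPolynomial.pderiv i q) •
        (ContinuousLinearMap.proj i : (Fin n → ℝ) →L[ℝ] ℝ)) x := by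
    have hf' : f = fun x => MvPolynomial.eval x q := funext hf
    rw [hf']
    exact h
  rw [h2.fderiv, ContinuousLinearMap.sum_apply, Finset.sum_eq_single i]
  · simp
  · intro j _ hj
    simp [hj]
  · intro hi
    exact absurd (Finset.mem_univ i) hi

theorem NN_pi_eq_eval {f : (Fin n → ℝ) → ℝ} {q : MvPolynomial (Fin n) ℝ}
    (hf : ∀ x, f x = MvPolynomial.eval x q) (x : Fin n → ℝ) :
    ∑ i, (x i * fderiv ℝ f x (Pi.single i 1)
              - fderiv ℝ (fun y => fderiv ℝ f y (Pi.single i 1)) x (Pi.single i 1)) =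
      MvPolynomial.eval x (NNq q) := by
  unfold NNq
  rw [map_sum]
  refine Finset.sum_congr rfl fun i _ => ?_
  rw [pd_pi_eq_eval hf, pd_pi_eq_eval (fun y => pd_pi_eq_eval hf i y)]
  simp

end pi

section hermite

open Polynomial

theorem hermite_ode (k : ℕ) :
    (X : ℤ[X]) * derivative (hermite k) - derivative (derivative (hermite k)) =
      (k : ℤ[X]) * hermite k := by
  induction k with
  | zero => simp
  | succ k ih =>
    have h1 : derivative (hermite (k + 1)) = ((k : ℤ[X]) + 1) * hermite k := by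
      rw [hermite_succ, derivative_sub, derivative_mul, derivative_X, one_mul]
      calc hermite k + X * derivative (hermite k) - derivative (derivative (hermite k)) =
          hermite k + (X * derivative (hermite k) - derivative (derivative (hermite k))) := by ring
        _ = _ := by rw [ih]; ring
    have h2 : derivative (((k : ℤ[X]) + 1) * hermite k) =
        ((k : ℤ[X]) + 1) * derivative (hermite k) := by
      rw [derivative_mul]
      simp
    rw [h1, h2]
    push_cast
    rw [hermite_succ]
    ring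

variable {n : ℕ}

/-- The Hermite polynomial in the variable `i`. -/
noncomputable def hv (i : Fin n) (p : ℤ[X]) : MvPolynomial (Fin n) ℝ :=
  aeval (MvPolynomial.X i : MvPolynomial (Fin n) ℝ) p

theorem pderiv_hv (i j : Fin n) (p : ℤ[X]) :
    MvPolynomial.pderiv i (hv j p) = if j = i then hv j (derivative p) else 0 := by
  have h1 := Derivation.map_aeval (D := (MvPolynomial.pderiv i :
    Derivation ℝ (MvPolynomial (Fin n) ℝ) (MvPolynomial (Fin n) ℝ)).restrictScalars ℤ) p
    (MvPolynomial.X j : MvPolynomial (Fin n) ℝ)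
  have h2 : MvPolynomial.pderiv i (hv j p) = aeval (MvPolynomial.X j : MvPolynomial (Fin n) ℝ)
      (derivative p) • MvPolynomial.pderiv i (MvPolynomial.X j : MvPolynomial (Fin n) ℝ) := h1
  rw [h2, MvPolynomial.pderiv_X]
  by_cases hij : j = i
  · subst hij
    simp [hv]
  · simp [hij, Ne.symm hij]

/-- The product of Hermite polynomials. -/
noncomputable def hp (α : Fin n → ℕ) : MvPolynomial (Fin n) ℝ :=
  ∏ i, hv i (hermite (α i))

theorem pderiv_rest (α : Fin n → ℕ) (i : Fin n) (s : Finset (Fin n)) (hs : i ∉ s) :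
    MvPolynomial.pderiv i (∏ j ∈ s, hv j (hermite (α j))) = 0 := by
  classical
  induction s using Finset.induction_on with
  | empty => simp
  | insert j s hj ih =>
    rw [Finset.prod_insert hj, Derivation.leibniz, pderiv_hv]
    have h1 : j ≠ i := fun h => hs (h ▸ Finset.mem_insert_self _ _)
    have h2 : i ∉ s := fun h => hs (Finset.mem_insert_of_mem h)
    rw [if_neg h1, ih h2]
    simp

theorem NNq_hp (α : Fin n → ℕ) : NNq (hp α) = ((∑ i, α i : ℕ) : MvPolynomial (Fin n) ℝ) * hp α := by
  unfold NNq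
  rw [Nat.cast_sum, Finset.sum_mul]
  refine Finset.sum_congr rfl fun i _ => ?_
  set R := ∏ j ∈ Finset.univ.erase i, hv j (hermite (α j)) with hR
  have hsplit : ∀ p : ℤ[X], MvPolynomial.pderiv i (R * hv i p) = R * hv i (derivative p) := by
    intro p
    rw [Derivation.leibniz, pderiv_hv, if_pos rfl, hR,
      pderiv_rest α i _ (Finset.notMem_erase i _)]
    simp
  have hq : hp α = R * hv i (hermite (α i)) := by
    unfold hp
    rw [hR, Finset.prod_erase_mul _ _ (Finset.mem_univ i)]
  rw [hq, hsplit, hsplit]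
  have h3 : hv i ((X : ℤ[X]) * derivative (hermite (α i)) -
      derivative (derivative (hermite (α i)))) = hv i (((α i : ℕ) : ℤ[X]) * hermite (α i)) := by
    rw [hermite_ode]
  unfold hv at h3 ⊢
  rw [map_sub, map_mul, map_mul, aeval_X, map_natCast] at h3
  calc _ = R * (MvPolynomial.X i * (aeval (MvPolynomial.X i)) (derivative (hermite (α i))) -
      (aeval (MvPolynomial.X i)) (derivative (derivative (hermite (α i))))) := by ring
    _ = _ := by rw [h3]; ring

theorem eval_hv (i : Fin n) (p : ℤ[X]) (y : Fin n → ℝ) :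
    MvPolynomial.eval y (hv i p) = aeval (y i) p := by
  unfold hv
  have h := Polynomial.hom_eval₂ p (algebraMap ℤ (MvPolynomial (Fin n) ℝ))
    (MvPolynomial.eval y) (MvPolynomial.X i)
  rw [aeval_def, h, MvPolynomial.eval_X, aeval_def]
  congr 1
  exact RingHom.ext_int _ _

theorem eval_hp (α : Fin n → ℕ) (y : Fin n → ℝ) :
    MvPolynomial.eval y (hp α) = ∏ i, aeval (y i) (hermite (α i)) := by
  unfold hp
  rw [map_prod]
  exact Finset.prod_congr rfl fun i _ => eval_hv i _ y

end hermite

theorem NNq_add {n : ℕ} (p q : MvPolynomial (Fin n) ℝ) : NNq (p + q) = NNq p + NNq q := by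
  unfold NNq
  rw [← Finset.sum_add_distrib]
  refine Finset.sum_congr rfl fun i _ => ?_
  simp only [map_add]
  ring

theorem NNq_smul {n : ℕ} (c : ℝ) (p : MvPolynomial (Fin n) ℝ) : NNq (c • p) = c • NNq p := by
  unfold NNq
  rw [Finset.smul_sum]
  refine Finset.sum_congr rfl fun i _ => ?_
  rw [Derivation.map_smul, Derivation.map_smul, smul_sub, mul_smul_comm]

theorem NNq_zero {n : ℕ} : NNq (0 : MvPolynomial (Fin n) ℝ) = 0 := by
  unfold NNq
  simp

/-- The decomposition property. -/
def Dec {n : ℕ} (d : ℕ) (f : (Fin n → ℝ) → ℝ) : Prop :=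
  ∃ (K : ℕ) (q : ℕ → MvPolynomial (Fin n) ℝ),
    (∀ k, NNq (q k) = (k : MvPolynomial (Fin n) ℝ) * q k) ∧ (∀ k, k < d → q k = 0) ∧
      (∀ k, K ≤ k → q k = 0) ∧ ∀ y, f y = ∑ k ∈ Finset.range K, MvPolynomial.eval y (q k)

theorem sum_range_ext {n : ℕ} {K K' : ℕ} (h : K ≤ K') (q : ℕ → MvPolynomial (Fin n) ℝ)
    (hq : ∀ k, K ≤ k → q k = 0) (y : Fin n → ℝ) :
    ∑ k ∈ Finset.range K, MvPolynomial.eval y (q k) =
      ∑ k ∈ Finset.range K', MvPolynomial.eval y (q k) := by
  refine Finset.sum_subset (Finset.range_subset_range.mpr h) fun k _ hk => ?_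
  rw [Finset.mem_range, not_lt] at hk
  rw [hq k hk, map_zero]

theorem dec_add {n d : ℕ} {f g : (Fin n → ℝ) → ℝ} (hf : Dec d f) (hg : Dec d g) :
    Dec d (f + g) := by
  obtain ⟨K, q, h1, h2, h3, h4⟩ := hf
  obtain ⟨K', q', h1', h2', h3', h4'⟩ := hg
  refine ⟨max K K', fun k => q k + q' k, ?_, ?_, ?_, ?_⟩
  · intro k
    rw [NNq_add, h1, h1']
    ring
  · intro k hk
    beta_reduce
    rw [h2 k hk, h2' k hk, add_zero]
  · intro k hk
    beta_reduce
    rw [h3 k ((le_max_left _ _).trans hk), h3' k ((le_max_right _ _).trans hk), add_zero]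
  · intro y
    rw [Pi.add_apply, h4, h4', sum_range_ext (le_max_left K K') q h3,
      sum_range_ext (le_max_right K K') q' h3', ← Finset.sum_add_distrib]
    exact Finset.sum_congr rfl fun k _ => (map_add _ _ _).symm

theorem dec_smul {n d : ℕ} {f : (Fin n → ℝ) → ℝ} (c : ℝ) (hf : Dec d f) : Dec d (c • f) := by
  obtain ⟨K, q, h1, h2, h3, h4⟩ := hf
  refine ⟨K, fun k => c • q k, ?_, ?_, ?_, ?_⟩
  · intro k
    rw [NNq_smul, h1, mul_smul_comm]
  · intro k hk
    beta_reduce
    rw [h2 k hk, smul_zero]
  · intro k hk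
    beta_reduce
    rw [h3 k hk, smul_zero]
  · intro y
    rw [Pi.smul_apply, h4, smul_eq_mul, Finset.mul_sum]
    refine Finset.sum_congr rfl fun k _ => ?_
    rw [MvPolynomial.smul_eval]

theorem dec_zero {n d : ℕ} : Dec d (0 : (Fin n → ℝ) → ℝ) :=
  ⟨0, fun _ => 0, fun k => by rw [NNq_zero, mul_zero], fun _ _ => rfl, fun _ _ => rfl,
    fun y => by simp⟩

theorem dec_gen {n d : ℕ} (α : Fin n → ℕ) (hα : d ≤ ∑ i, α i) :
    Dec d (fun x => ∏ i, Polynomial.aeval (x i) (Polynomial.hermite (α i))) := by
  refine ⟨∑ i, α i + 1, fun k => if k = ∑ i, α i then hp α else 0, ?_, ?_, ?_, ?_⟩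
  · intro k
    beta_reduce
    by_cases hk : k = ∑ i, α i
    · rw [if_pos hk, NNq_hp, hk]
    · rw [if_neg hk, NNq_zero, mul_zero]
  · intro k hk
    exact if_neg (by omega)
  · intro k hk
    exact if_neg (by omega)
  · intro y
    rw [Finset.sum_eq_single (∑ i, α i)]
    · beta_reduce
      rw [if_pos rfl, eval_hp]
    · intro k _ hk
      beta_reduce
      rw [if_neg hk, map_zero]
    · intro h
      exact absurd (Finset.mem_range.mpr (Nat.lt_succ_self _)) h

/-- decomposition of an element of the span into eigenfunctions -/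
theorem H1 {n d : ℕ} (f : (Fin n → ℝ) → ℝ)
    (hf : f ∈ Submodule.span ℝ {g : (Fin n → ℝ) → ℝ | ∃ α : Fin n → ℕ, d ≤ ∑ i, α i ∧
          g = fun x => ∏ i, Polynomial.aeval (x i) (Polynomial.hermite (α i))}) :
    ∃ (K : ℕ) (fk : ℕ → E n → ℝ), (∀ k, IsPoly (fk k)) ∧ (∀ k x, NN (fk k) x = k * fk k x) ∧
      ∀ x : E n, f (fun i => x i) = ∑ k ∈ Finset.Ico d K, fk k x := by
  have hdec : Dec d f := by
    induction hf using Submodule.span_induction with
    | mem g hg =>
      obtain ⟨α, hα, rfl⟩ := hg
      exact dec_gen α hα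
    | zero => exact dec_zero
    | add g g' _ _ ih ih' => exact dec_add ih ih'
    | smul c g _ ih => exact dec_smul c ih
  obtain ⟨K, q, h1, h2, h3, h4⟩ := hdec
  refine ⟨K, fun k x => MvPolynomial.eval (fun i => x i) (q k), fun k => ⟨q k, fun x => rfl⟩,
    ?_, ?_⟩
  · intro k x
    rw [NN_eq_eval (q := q k) (fun x => rfl), h1, map_mul, map_natCast]
  · intro x
    rw [h4]
    symm
    refine Finset.sum_subset ?_ ?_
    · intro k hk
      rw [Finset.mem_Ico] at hk
      exact Finset.mem_range.mpr hk.2
    · intro k hk hk'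
      rw [Finset.mem_range] at hk
      rw [Finset.mem_Ico, not_and_or] at hk'
      rcases hk' with h | h
      · beta_reduce
        rw [h2 k (not_le.mp h), map_zero]
      · exact absurd hk h

/-- transfer of the operator and of the norms -/
theorem H2 {n : ℕ} (f : (Fin n → ℝ) → ℝ) (f' : E n → ℝ) (hf' : IsPoly f')
    (hff : ∀ x : E n, f (fun i => x i) = f' x) (p : ℝ) (_hp : 1 < p) :
    eLpNorm f (ENNReal.ofReal p) (Measure.pi (fun _ : Fin n => gaussianReal 0 1)) =
        eLpNorm f' (ENNReal.ofReal p) (gm n) ∧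
      eLpNorm (fun x => ∑ i, (x i * fderiv ℝ f x (Pi.single i 1)
              - fderiv ℝ (fun y => fderiv ℝ f y (Pi.single i 1)) x (Pi.single i 1)))
            (ENNReal.ofReal p) (Measure.pi (fun _ : Fin n => gaussianReal 0 1)) =
        eLpNorm (NN f') (ENNReal.ofReal p) (gm n) := by
  obtain ⟨q, hq⟩ := hf'
  have hfq : ∀ y, f y = MvPolynomial.eval y q := by
    intro y
    have h1 := hff (WithLp.toLp 2 y)
    rw [hq] at h1
    exact h1
  have key : ∀ r : MvPolynomial (Fin n) ℝ,
      eLpNorm (fun y => MvPolynomial.eval y r) (ENNReal.ofReal p)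
        (Measure.pi (fun _ : Fin n => gaussianReal 0 1)) =
      eLpNorm (fun x : E n => MvPolynomial.eval (fun i => x i) r) (ENNReal.ofReal p) (gm n) := by
    intro r
    unfold gm
    rw [← map_pi_eq_stdGaussian, eLpNorm_map_measure]
    · rfl
    · refine Continuous.aestronglyMeasurable ?_
      have h1 : Continuous fun y : Fin n → ℝ => MvPolynomial.eval y r :=
        MvPolynomial.continuous_eval r
      exact h1.comp (continuous_pi fun i => by fun_prop)
    · fun_prop
  have e1 : f = fun y => MvPolynomial.eval y q := funext hfq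
  have e2 : f' = fun x : E n => MvPolynomial.eval (fun i => x i) q := funext hq
  have e3 : (fun x : Fin n → ℝ => ∑ i, (x i * fderiv ℝ f x (Pi.single i 1)
      - fderiv ℝ (fun y => fderiv ℝ f y (Pi.single i 1)) x (Pi.single i 1))) =
      fun y => MvPolynomial.eval y (NNq q) := funext fun y => NN_pi_eq_eval hfq y
  have e4 : NN f' = fun x : E n => MvPolynomial.eval (fun i => x i) (NNq q) :=
    funext fun x => NN_eq_eval hq x
  constructor
  · rw [e1, e2]
    exact key q
  · rw [e3, e4]
    exact key (NNq q)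

end Pool.Agent.H44.Heat
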